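import Pool.Agent.Lib_helper52.YG.Defs
import Pool.Agent.Lib_helper37.YG.S8
import Pool.Agent.Lib_helper35.YG.S9
import Pool.Agent.Lib_helper52.EPS.P.D2

set_option autoImplicit false

namespace Pool.Agent.YG

open MeasureTheory ENNReal Set Filter Topology Pool.Agent.EPS

theorem s11_zero {c1 c2 c3 : ℝ} : YG (Fin 0 → ℝ) c1 c2 c3 1 := by
  intro f g h _ _ _
  have hd : (volume : Measure (Fin 0 → ℝ)) = Measure.dirac default := by
    rw [volume_pi]
    exact Measure.pi_of_empty _ _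
  have e : ∀ w : (Fin 0 → ℝ) → ℝ≥0∞, ∫⁻ x, w x = w default := by
    intro w
    rw [hd]
    exact lintegral_dirac _ _
  rw [e, e, e, e, e]
  have : (default : Fin 0 → ℝ) + default = default := Subsingleton.elim _ _
  rw [this]
  simp [mul_assoc]

theorem s11_pi {c1 c2 c3 : ℝ} (h : Wt c1 c2 c3) (d : ℕ) :
    YG (Fin d → ℝ) c1 c2 c3 (Kc c1 c2 c3 ^ d) := by
  induction d with
  | zero => simpa using s11_zero
  | succ d ih =>
    have h1 := YG_prod (G := ℝ) (H := Fin d → ℝ) h (Real.exp_pos _).le (YG_real h) ih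
    have h2 := YG_equiv (d2_cons d).toMeasurableEquiv (by
      intro x y
      funext i
      refine Fin.cases ?_ (fun j => ?_) i
      · show x.1 + y.1 = _
        rfl
      · rfl) (d2_mp d) h1
    rw [pow_succ']
    exact h2

/-- the sharp Young inequality in `ℝ^d` -/
theorem YG_euclid {c1 c2 c3 : ℝ} (h : Wt c1 c2 c3) (d : ℕ) :
    YG (EuclideanSpace ℝ (Fin d)) c1 c2 c3 (Kc c1 c2 c3 ^ d) := by
  refine YG_equiv (PiLp.homeomorph 2 (fun _ : Fin d => ℝ)).symm.toMeasurableEquiv
    (fun x y => rfl) ?_ (s11_pi h d)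
  exact PiLp.volume_preserving_toLp (Fin d)

end Pool.Agent.YG
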