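import Pool.Agent.Lib_helper52.YG.Defs
import Pool.Agent.Lib_helper67.YG.T0
import Pool.Agent.Lib_helper90.YG.T1
import Pool.Agent.Lib_helper4.YG.T4
import Pool.Agent.Lib_helper9.YG.T5
import Pool.Agent.Lib_helper52.YG.P.S11

set_option autoImplicit false

namespace Pool.Agent.YG

open MeasureTheory ENNReal Set Filter Topology Pool.Agent.EPS

variable {d : ℕ}

theorem t6_comp {Ω : Type*} [MeasurableSpace Ω] {μ : Measure Ω}
    (α : Measure (EuclideanSpace ℝ (Fin d))) [IsProbabilityMeasure α] (h : FinE α)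
    {φ : Ω → EuclideanSpace ℝ (Fin d)} (hφ : MeasurePreserving φ μ α) :
    Integrable (fun p => lg α (φ p)) μ ∧ ∫ p, lg α (φ p) ∂μ = -ent α := by
  obtain ⟨h1, h2, -⟩ := log_dens α h
  refine ⟨(hφ.integrable_comp h1.aestronglyMeasurable).2 h1, ?_⟩
  rw [← h2, ← hφ.map_eq, integral_map hφ.measurable.aemeasurable]
  rw [hφ.map_eq]
  exact h1.aestronglyMeasurable

/-- the entropic form of the sharp Young inequality, conditioned on the sum -/
theorem young_ent {c1 c2 c3 : ℝ} (w : Wt c1 c2 c3)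
    (α β γ : Measure (EuclideanSpace ℝ (Fin d))) [IsProbabilityMeasure α]
    [IsProbabilityMeasure β] [IsProbabilityMeasure γ] (hα : FinE α) (hβ : FinE β)
    (hγ : FinE γ) (h1 : FinE (β.conv γ)) (h2 : FinE (α.conv γ)) (h3 : FinE (α.conv β))
    (hv : FinE ((α.conv β).conv γ)) :
    ent ((α.conv β).conv γ) + (1 - c1) * ent α + (1 - c2) * ent β + (1 - c3) * ent γ ≤
      c1 * ent (β.conv γ) + c2 * ent (α.conv γ) + c3 * ent (α.conv β) +
        d * Real.log (Kc c1 c2 c3) := by
  obtain ⟨m1, m2, m3, m4, m5, m6, m7⟩ := laws α β γ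
  obtain ⟨i1, e1⟩ := t6_comp α hα m1
  obtain ⟨i2, e2⟩ := t6_comp β hβ m2
  obtain ⟨i3, e3⟩ := t6_comp γ hγ m3
  obtain ⟨i4, e4⟩ := t6_comp (β.conv γ) h1 m4
  obtain ⟨i5, e5⟩ := t6_comp (α.conv γ) h2 m5
  obtain ⟨i6, e6⟩ := t6_comp (α.conv β) h3 m6
  obtain ⟨i7, e7⟩ := t6_comp ((α.conv β).conv γ) hv m7
  have j1 := i1.const_mul (1 - c1)
  have j2 := i2.const_mul (1 - c2)
  have j3 := i3.const_mul (1 - c3)
  have j4 := i4.const_mul c1
  have j5 := i5.const_mul c2
  have j6 := i6.const_mul c3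
  have k1 := i7.neg.sub j1
  have k2 := k1.sub j2
  have k3 := k2.sub j3
  have k4 := k3.add j4
  have k5 := k4.add j5
  have k6 := k5.add j6
  have il : Integrable (ell α β γ c1 c2 c3) (α.prod (β.prod γ)) := k6
  have el : ∫ p, ell α β γ c1 c2 c3 p ∂(α.prod (β.prod γ)) =
      ent ((α.conv β).conv γ) + (1 - c1) * ent α + (1 - c2) * ent β + (1 - c3) * ent γ -
        c1 * ent (β.conv γ) - c2 * ent (α.conv γ) - c3 * ent (α.conv β) := by
    have := integral_add' k5 j6
    rw [integral_add' k4 j5, integral_add' k3 j4, integral_sub' k2 j3, integral_sub' k1 j2,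
      integral_sub' i7.neg j1, integral_neg', integral_const_mul, integral_const_mul,
      integral_const_mul, integral_const_mul, integral_const_mul, integral_const_mul, e1, e2, e3,
      e4, e5, e6, e7] at this
    refine Eq.trans ?_ (this.trans (by ring))
    rfl
  have hb := exp_bound w (YG_euclid w d) α β γ hα.1 hβ.1 hγ.1
  have hj := jensen_exp _ _ il _ hb
  have hk : 0 < Kc c1 c2 c3 := Real.exp_pos _
  have := (Real.le_log_iff_exp_le (pow_pos hk d)).2 hj
  rw [Real.log_pow, el] at this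
  linarith

end Pool.Agent.YG
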