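import Pool.Agent.Lib_helper52.YG.Defs
import Pool.Agent.Lib_helper52.EPS.P.RES

set_option autoImplicit false

namespace Pool.Agent.YG

open MeasureTheory ENNReal Set Filter Topology Pool.Agent.EPS

variable {d : ℕ}

/-- the entropy power inequality -/
theorem epi_pow (hd : 0 < d) (α β : Measure (EuclideanSpace ℝ (Fin d))) [IsProbabilityMeasure α]
    [IsProbabilityMeasure β] (hα : FinE α) (hβ : FinE β) (hc : FinE (α.conv β)) :
    epw α + epw β ≤ epw (α.conv β) := by
  have hd0 : (0 : ℝ) < d := by exact_mod_cast hd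
  have hA : 0 < epw α := Real.exp_pos _
  have hB : 0 < epw β := Real.exp_pos _
  have hAB : 0 < epw α + epw β := by linarith
  have hl0 : 0 < epw α / (epw α + epw β) := div_pos hA hAB
  have hl1 : epw α / (epw α + epw β) < 1 := by
    rw [div_lt_one hAB]; linarith
  have h := epi_meas α β hα hβ hc _ hl0 hl1
  have e1 : 1 - epw α / (epw α + epw β) = epw β / (epw α + epw β) := by
    field_simp
    ring
  have lA : Real.log (epw α) = 2 / (d : ℝ) * ent α := Real.log_exp _
  have lB : Real.log (epw β) = 2 / (d : ℝ) * ent β := Real.log_exp _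
  have lC : Real.log (epw (α.conv β)) = 2 / (d : ℝ) * ent (α.conv β) := Real.log_exp _
  have key : Real.log (epw α + epw β) ≤ Real.log (epw (α.conv β)) := by
    have h2 := mul_le_mul_of_nonneg_left h (by positivity : (0 : ℝ) ≤ 2 / (d : ℝ))
    rw [lC]
    refine le_trans (le_of_eq ?_) h2
    rw [Real.binEntropy, Real.log_inv, Real.log_inv, e1, Real.log_div hA.ne' hAB.ne',
      Real.log_div hB.ne' hAB.ne', lA, lB]
    have e2 : epw β / (epw α + epw β) = 1 - epw α / (epw α + epw β) := e1.symm
    rw [e2]
    field_simp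
    ring
  exact (Real.log_le_log_iff hAB (Real.exp_pos _)).1 key

end Pool.Agent.YG
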