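import Pool.Agent.Lib_helper52.YG.Defs
import Pool.Agent.Lib_helper52.YG.P.T6
import Pool.Agent.Lib_helper67.YG.U1
import Pool.Agent.Lib_helper99.YG.U2
import Pool.Agent.Lib_helper52.YG.P.U3
import Pool.Agent.Lib_helper52.EPS.P.FIN

set_option autoImplicit false

namespace Pool.Agent.YG

open MeasureTheory ENNReal Set Filter Topology ProbabilityTheory Pool.Agent.EPS

variable {d : ℕ}

theorem fin_log (μ : Measure (EuclideanSpace ℝ (Fin d))) : Real.log (epw μ) = 2 / (d : ℝ) * ent μ :=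
  Real.log_exp _

theorem fin_mul (hd : 0 < d) {a b c e : ℝ} (h : a + b ≤ c + e) :
    Real.exp ((2 / (d : ℝ)) * a) * Real.exp ((2 / (d : ℝ)) * b) ≤
      Real.exp ((2 / (d : ℝ)) * c) * Real.exp ((2 / (d : ℝ)) * e) := by
  have hd0 : (0 : ℝ) < d := by exact_mod_cast hd
  rw [← Real.exp_add, ← Real.exp_add, ← mul_add, ← mul_add]
  exact Real.exp_le_exp.2 (mul_le_mul_of_nonneg_left h (by positivity))

/-- the inequalities known for the entropy powers -/
theorem epow_meas (hd : 0 < d) (ξ η ζ : Measure (EuclideanSpace ℝ (Fin d)))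
    [IsProbabilityMeasure ξ] [IsProbabilityMeasure η] [IsProbabilityMeasure ζ] (hξ : FinE ξ)
    (hη : FinE η) (hζ : FinE ζ) (h1 : FinE (ξ.conv ζ)) (h2 : FinE (η.conv ζ))
    (h3 : FinE ((ξ.conv η).conv ζ)) :
    EPow (epw ξ) (epw η) (epw ζ) (epw (ξ.conv ζ)) (epw (η.conv ζ)) (epw (ξ.conv η))
      (epw ((ξ.conv η).conv ζ)) := by
  have hd0 : (0 : ℝ) < d := by exact_mod_cast hd
  have hF : FinE (ξ.conv η) := by
    refine mid_fin ζ ξ η hη ?_
    rw [Measure.conv_comm]
    exact h3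
  have cz : ζ.conv ξ = ξ.conv ζ := Measure.conv_comm _ _
  have cy : η.conv ξ = ξ.conv η := Measure.conv_comm _ _
  have cq : ζ.conv η = η.conv ζ := Measure.conv_comm _ _
  refine ⟨Real.exp_pos _, Real.exp_pos _, Real.exp_pos _, epi_pow hd ξ ζ hξ hζ h1,
    epi_pow hd η ζ hη hζ h2, epi_pow hd ξ η hξ hη hF, ?_, ?_, ?_, ?_, ?_⟩
  · have e : ζ.conv (ξ.conv η) = (ξ.conv η).conv ζ := Measure.conv_comm _ _
    have := (MI_val ζ (ξ.conv η) hF (by rw [e]; exact h3)).2
    rw [e] at this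
    exact Real.exp_le_exp.2 (mul_le_mul_of_nonneg_left this (by positivity))
  · have e : ξ.conv (η.conv ζ) = (ξ.conv η).conv ζ := (Measure.conv_assoc _ _ _).symm
    have := (submod ξ η ζ hζ h1 h2).2
    rw [e] at this
    exact fin_mul hd this
  · have e : η.conv (ζ.conv ξ) = (ξ.conv η).conv ζ := by
      rw [← cy, Measure.conv_assoc, cz]
    have := (submod η ζ ξ hξ (by rw [cy]; exact hF) (by rw [cz]; exact h1)).2
    rw [e, cy, cz] at this
    exact fin_mul hd (by linarith)
  · have e : ξ.conv (ζ.conv η) = (ξ.conv η).conv ζ := by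
      rw [cq, Measure.conv_assoc]
    have := (submod ξ ζ η hη hF (by rw [cq]; exact h2)).2
    rw [e, cq] at this
    exact fin_mul hd (by linarith)
  · intro a b c ha hb hc e1 e2 e3
    refine heron _ _ _ _ _ _ _ a b c (Real.exp_pos _) (Real.exp_pos _) (Real.exp_pos _)
      (Real.exp_pos _) (Real.exp_pos _) (Real.exp_pos _) (Real.exp_pos _) ha hb hc e1 e2 e3 ?_
    intro c1 c2 c3 w
    have h := young_ent w ξ η ζ hξ hη hζ h2 h1 hF h3
    simp only [fin_log, Real.log_exp]
    have h4 := mul_le_mul_of_nonneg_left h (by positivity : (0 : ℝ) ≤ 2 / (d : ℝ))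
    have e5 : 2 / (d : ℝ) * (d * Real.log (Kc c1 c2 c3)) = 2 * Real.log (Kc c1 c2 c3) := by
      field_simp
    have e6 : 2 / (d : ℝ) * (c1 * ent (η.conv ζ) + c2 * ent (ξ.conv ζ) + c3 * ent (ξ.conv η) +
        d * Real.log (Kc c1 c2 c3)) = c1 * (2 / (d : ℝ) * ent (η.conv ζ)) +
        c2 * (2 / (d : ℝ) * ent (ξ.conv ζ)) + c3 * (2 / (d : ℝ) * ent (ξ.conv η)) +
        2 / (d : ℝ) * (d * Real.log (Kc c1 c2 c3)) := by ring
    rw [e6, e5] at h4
    linarith

/-- exchange of the roles of `X` and `Y` -/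
theorem fin_swap {x y z p q r v : ℝ} (h : EPow x y z p q r v) : EPow y x z q p r v :=
  ⟨h.hy, h.hx, h.hz, h.eq, h.ep, by linarith [h.er], h.rv, by linarith [h.sz], h.sy, h.sx, by
    intro a b c ha hb hc e1 e2 e3
    have := h.he b a c hb ha hc e2 e1 (by linarith)
    linarith⟩

/-- exchange of the roles of `X` and `Z` -/
theorem fin_swap' {x y z p q r v : ℝ} (h : EPow x y z p q r v) (hqv : q ≤ v) :
    EPow z y x p r q v :=
  ⟨h.hz, h.hy, h.hx, by linarith [h.ep], by linarith [h.er], by linarith [h.eq], hqv,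
    h.sx, h.sz, by linarith [h.sy], by
    intro a b c ha hb hc e1 e2 e3
    have := h.he c b a hc hb ha (by linarith) (by linarith) (by linarith)
    linarith⟩

/-- the summary for measures -/
theorem summary {x y z p q r v : ℝ} (h : EPow x y z p q r v) (hq : q ≤ v) (hp : p ≤ v) :
    (∀ a b c : ℝ, 0 < a → 0 < b → 0 < c → x * q = b + c → y * p = a + c → z * r = a + b →
      x * y * z * v ≤ a * b + b * c + c * a) ∧
    (z * r + 2 * (x * y) ≤ x * q + y * p → v * z + x * y ≤ p * q) ∧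
    ((v * z + x * y ≤ p * q ∨ v * x + y * z ≤ r * p) ∧
      (v * z + x * y ≤ p * q ∨ v * y + x * z ≤ r * q) ∧
      (v * x + y * z ≤ r * p ∨ v * y + x * z ≤ r * q)) ∧
    1 / 2 * (v * z) + x * y ≤ p * q := by
  refine ⟨h.he, criterion h, ⟨?_, ?_, ?_⟩, ?_⟩
  · rcases two_pivots h with h1 | h1
    · exact Or.inl h1
    · exact Or.inr (by linarith)
  · rcases two_pivots (fin_swap h) with h1 | h1
    · exact Or.inl (by linarith)
    · exact Or.inr (by linarith)
  · -- pivots `X` and `Y`: use the triple `(Z, Y, X)`, then swap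
    have h' := fin_swap' h hq
    rcases two_pivots (fin_swap h') with h1 | h1
    · exact Or.inl (by linarith)
    · exact Or.inr (by linarith)
  · have := half h
    linarith

end Pool.Agent.YG
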