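import Pool.Agent.Lib_helper52.YG.P.FIN

set_option autoImplicit false

namespace Pool.Agent.YG

open MeasureTheory ProbabilityTheory Pool.Agent.EPS

theorem yg_final (d : ℕ) (hd : 0 < d) (Ω : Type*) [MeasurableSpace Ω] (P : Measure Ω)
      [IsProbabilityMeasure P] (X Y Z : Ω → EuclideanSpace ℝ (Fin d))
      (hX : Measurable X) (hY : Measurable Y) (hZ : Measurable Z)
      (hI : iIndepFun ![X, Y, Z] P)
      (aX : P.map X ≪ volume) (aY : P.map Y ≪ volume) (aZ : P.map Z ≪ volume)
      (N : (Ω → EuclideanSpace ℝ (Fin d)) → ℝ)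
      (hN : ∀ W : Ω → EuclideanSpace ℝ (Fin d), N W = Real.exp ((2 / (d : ℝ)) *
          ∫ x, Real.negMulLog (((P.map W).rnDeriv volume x).toReal)))
      (hint : ∀ W ∈ [X, Y, Z, X + Z, Y + Z, X + Y + Z],
          Integrable (fun x => Real.negMulLog (((P.map W).rnDeriv volume x).toReal)) volume) :
    ((N (X + Y + Z) * N Z + N X * N Y ≤ N (X + Z) * N (Y + Z) ∨
        N (X + Y + Z) * N X + N Y * N Z ≤ N (X + Y) * N (X + Z)) ∧
      (N (X + Y + Z) * N Z + N X * N Y ≤ N (X + Z) * N (Y + Z) ∨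
        N (X + Y + Z) * N Y + N X * N Z ≤ N (X + Y) * N (Y + Z)) ∧
      (N (X + Y + Z) * N X + N Y * N Z ≤ N (X + Y) * N (X + Z) ∨
        N (X + Y + Z) * N Y + N X * N Z ≤ N (X + Y) * N (Y + Z))) ∧
    (N Z * N (X + Y) + 2 * (N X * N Y) ≤ N X * N (Y + Z) + N Y * N (X + Z) →
      N (X + Y + Z) * N Z + N X * N Y ≤ N (X + Z) * N (Y + Z)) ∧
    (IdentDistrib X Z P P ∨ IdentDistrib Y Z P P →
      N (X + Y + Z) * N Z + N X * N Y ≤ N (X + Z) * N (Y + Z)) ∧
    1 / 2 * (N (X + Y + Z) * N Z) + N X * N Y ≤ N (X + Z) * N (Y + Z) ∧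
    ∀ a b c : ℝ, 0 < a → 0 < b → 0 < c → N X * N (Y + Z) = b + c →
      N Y * N (X + Z) = a + c → N Z * N (X + Y) = a + b →
      N X * N Y * N Z * N (X + Y + Z) ≤ a * b + b * c + c * a := by
  have hm : ∀ i, Measurable (![X, Y, Z] i) := by
    intro i
    fin_cases i
    · exact hX
    · exact hY
    · exact hZ
  have iXY : IndepFun X Y P := by
    have := hI.indepFun (i := 0) (j := 1) (by decide)
    simpa using this
  have iXZ : IndepFun X Z P := by
    have := hI.indepFun (i := 0) (j := 2) (by decide)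
    simpa using this
  have iYZ : IndepFun Y Z P := by
    have := hI.indepFun (i := 1) (j := 2) (by decide)
    simpa using this
  have iXYZ : IndepFun (X + Y) Z P := by
    have := hI.indepFun_add_left hm 0 1 2 (by decide) (by decide)
    simpa using this
  have pX : IsProbabilityMeasure (P.map X) := Measure.isProbabilityMeasure_map hX.aemeasurable
  have pY : IsProbabilityMeasure (P.map Y) := Measure.isProbabilityMeasure_map hY.aemeasurable
  have pZ : IsProbabilityMeasure (P.map Z) := Measure.isProbabilityMeasure_map hZ.aemeasurable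
  have eXY : P.map (X + Y) = (P.map X).conv (P.map Y) := iXY.map_add_eq_map_conv_map hX hY
  have eXZ : P.map (X + Z) = (P.map X).conv (P.map Z) := iXZ.map_add_eq_map_conv_map hX hZ
  have eYZ : P.map (Y + Z) = (P.map Y).conv (P.map Z) := iYZ.map_add_eq_map_conv_map hY hZ
  have eXYZ : P.map (X + Y + Z) = ((P.map X).conv (P.map Y)).conv (P.map Z) := by
    rw [← eXY]
    exact iXYZ.map_add_eq_map_conv_map (hX.add hY) hZ
  have fX : FinE (P.map X) := ⟨aX, hint X (by simp)⟩
  have fY : FinE (P.map Y) := ⟨aY, hint Y (by simp)⟩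
  have fZ : FinE (P.map Z) := ⟨aZ, hint Z (by simp)⟩
  have fXZ : FinE ((P.map X).conv (P.map Z)) := by
    have h := hint (X + Z) (by simp)
    rw [eXZ] at h
    exact finE_conv _ _ aZ h
  have fYZ : FinE ((P.map Y).conv (P.map Z)) := by
    have h := hint (Y + Z) (by simp)
    rw [eYZ] at h
    exact finE_conv _ _ aZ h
  have fXYZ : FinE (((P.map X).conv (P.map Y)).conv (P.map Z)) := by
    have h := hint (X + Y + Z) (by simp)
    rw [eXYZ] at h
    exact finE_conv _ _ aZ h
  have n1 : N X = epw (P.map X) := hN X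
  have n2 : N Y = epw (P.map Y) := hN Y
  have n3 : N Z = epw (P.map Z) := hN Z
  have n4 : N (X + Z) = epw ((P.map X).conv (P.map Z)) := by rw [← eXZ]; exact hN _
  have n5 : N (Y + Z) = epw ((P.map Y).conv (P.map Z)) := by rw [← eYZ]; exact hN _
  have n6 : N (X + Y + Z) = epw (((P.map X).conv (P.map Y)).conv (P.map Z)) := by
    rw [← eXYZ]; exact hN _
  have n7 : N (X + Y) = epw ((P.map X).conv (P.map Y)) := by rw [← eXY]; exact hN _
  have hE := epow_meas hd (P.map X) (P.map Y) (P.map Z) fX fY fZ fXZ fYZ fXYZ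
  rw [← n1, ← n2, ← n3, ← n4, ← n5, ← n6, ← n7] at hE
  have hd0 : (0 : ℝ) < d := by exact_mod_cast hd
  have mono : ∀ a b : ℝ, a ≤ b → Real.exp ((2 / (d : ℝ)) * a) ≤ Real.exp ((2 / (d : ℝ)) * b) := by
    intro a b h
    exact Real.exp_le_exp.2 (mul_le_mul_of_nonneg_left h (by positivity))
  have hq : N (Y + Z) ≤ N (X + Y + Z) := by
    rw [n5, n6]
    have e : (P.map X).conv ((P.map Y).conv (P.map Z)) =
        ((P.map X).conv (P.map Y)).conv (P.map Z) := (Measure.conv_assoc _ _ _).symm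
    have := (MI_val (P.map X) ((P.map Y).conv (P.map Z)) fYZ (by rw [e]; exact fXYZ)).2
    rw [e] at this
    exact mono _ _ this
  have hp : N (X + Z) ≤ N (X + Y + Z) := by
    rw [n4, n6]
    have e : (P.map Y).conv ((P.map X).conv (P.map Z)) =
        ((P.map X).conv (P.map Y)).conv (P.map Z) := by
      rw [← Measure.conv_assoc, Measure.conv_comm (P.map Y)]
    have := (MI_val (P.map Y) ((P.map X).conv (P.map Z)) fXZ (by rw [e]; exact fXYZ)).2
    rw [e] at this
    exact mono _ _ this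
  obtain ⟨s1, s2, s3, s4⟩ := summary hE hq hp
  refine ⟨s3, s2, ?_, s4, s1⟩
  rintro (h | h)
  · have hmap : P.map X = P.map Z := h.map_eq
    have g1 : N X = N Z := by rw [n1, n3, hmap]
    have g2 : N (X + Y) = N (Y + Z) := by
      rw [n7, n5, hmap, Measure.conv_comm]
    rcases s3.1 with h1 | h1
    · exact h1
    · rw [g1, g2] at h1
      rw [g1]
      linarith
  · have hmap : P.map Y = P.map Z := h.map_eq
    have g1 : N Y = N Z := by rw [n2, n3, hmap]
    have g2 : N (X + Y) = N (X + Z) := by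
      rw [n7, n4, hmap]
    rcases s3.2.1 with h1 | h1
    · exact h1
    · rw [g1, g2] at h1
      rw [g1]
      linarith

end Pool.Agent.YG
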